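import Mathlib
import Pool.Agent.H852.QP.Hom

set_option autoImplicit false

/-!
# Maximal rank for general collisions, quasi-polynomial multiplicities: all degrees but at most one

For every `ε > 0` there is an `N` such that for all `r ≥ N`, `1 ≤ m ≤ exp ((log r) ^ 2 / 64)` and
every algebraically closed field `k` of characteristic zero or greater than `r (m + 2)`, the
subscheme of the plane with ideal
`(y - (a₀ + a₁ x + ... + a_(r-1) x ^ (r-1)), (x - c) ^ r) ^ m` imposes independent conditions on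
forms of degree `d`, or lies on no form of degree `d`, for all `d` with
`|2 d + 3 - √r - 2 √r m| ≥ ε`, and for all `(c, a)` outside a hypersurface.
-/

namespace Pool.Agent.Results.MP_e6aa12_ag.AllButOneQuasiPolynomial

open Polynomial

/-- The forms of degree `d` in three variables whose dehomogenisation lies in the ideal
`(y - ∑ a_j x ^ j, (x - c) ^ r) ^ m` of `k[x][y]`. -/
noncomputable def forms {k : Type} [Field k] {r : ℕ} (m : ℕ) (c : k) (a : Fin r → k) (d : ℕ) :
    Submodule k (MvPolynomial (Fin 3) k) :=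
  MvPolynomial.homogeneousSubmodule (Fin 3) k d ⊓
    (Submodule.restrictScalars k
      ((Ideal.span {X - C (∑ j : Fin r, C (a j) * X ^ (j : ℕ)), C ((X - C c) ^ r)} :
        Ideal k[X][X]) ^ m)).comap
      (MvPolynomial.aeval ![C X, X, 1] :
        MvPolynomial (Fin 3) k →ₐ[k] k[X][X]).toLinearMap

theorem result (ε : ℝ) (hε : 0 < ε) : ∃ N : ℕ, ∀ r : ℕ, N ≤ r → ∀ m : ℕ, 0 < m →
    (m : ℝ) ≤ Real.exp (Real.log r ^ 2 / 64) →
    ∀ (k : Type) [Field k] [IsAlgClosed k],
    (∀ j : ℕ, 0 < j → j ≤ r * (m + 2) → (j : k) ≠ 0) →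
    ∃ F : MvPolynomial (Fin (r + 1)) k, F ≠ 0 ∧
      ∀ (c : k) (a : Fin r → k), MvPolynomial.eval (Fin.cons c a : Fin (r + 1) → k) F ≠ 0 →
        ∀ d : ℕ, ε ≤ |2 * (d : ℝ) + 3 - Real.sqrt r - 2 * (Real.sqrt r * m)| →
          Module.finrank k ↥(forms m c a d) = Nat.choose (d + 2) 2 - r * Nat.choose (m + 1) 2 := by
  obtain ⟨N, hN100, hN⟩ := H852.QP.exists_dataQ hε
  obtain ⟨N', hNN', hN'100, hN'⟩ := H852.QP.exists_kQ N (by omega)
  refine ⟨N', fun r hr m hm hmX k _ _ hchar => ?_⟩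
  have : Infinite k := IsAlgClosed.instInfinite
  obtain ⟨q, hq1, hq2⟩ := hN' r hr
  obtain ⟨u, v, δ, σ, hD⟩ := hN r q hq1
  have h1 := hq2 m hmX
  have hq0 : 1 ≤ q := by
    by_contra hcon
    have : q = 0 := by omega
    subst this
    rw [pow_zero] at h1
    omega
  obtain ⟨F, hF, hF'⟩ := H932R6.win_collisionR (K := k) hD (by omega) hq0 hm (by omega) hchar
  exact ⟨F, hF, fun c a hP d hd => hF' c a hP d (H932R6.WinE.uni (by omega) hd)⟩

end Pool.Agent.Results.MP_e6aa12_ag.AllButOneQuasiPolynomial
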