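import Mathlib
import Pool.Agent.H713R3.CollQ

set_option autoImplicit false

/-!
# Maximal rank for general collisions: quasi-polynomially thin window, every characteristic

For every algebraically closed field `k` of any characteristic, all `r ≥ 5 ^ 168` and all `m ≥ 1`,
the subscheme of the plane with ideal
`(y - (a₀ + a₁ x + ... + a_(r-1) x ^ (r-1)), (x - c) ^ r) ^ m` imposes, for all `(c, a)` outside a
hypersurface, independent conditions on forms of degree `d`, or lies on no form of degree `d`, for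
all `d` with `d ≤ (1 - ε) m √r`, or `d < m √r` and `m ≤ exp ((log r) ^ 2 / 92)`, or
`√r (m + 1) ≤ (1 - ε) d`, where `ε = exp (-(log r) ^ 2 / 31)`.
-/

namespace Pool.Agent.Results.MP_e6aa12_ag.CollisionQuasiPolynomial

open Polynomial

universe u

/-- The forms of degree `d` in three variables whose dehomogenisation lies in the ideal
`(y - ∑ a_j x ^ j, (x - c) ^ r) ^ m` of `k[x][y]`. -/
noncomputable def forms {k : Type u} [Field k] {r : ℕ} (m : ℕ) (c : k) (a : Fin r → k) (d : ℕ) :
    Submodule k (MvPolynomial (Fin 3) k) :=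
  MvPolynomial.homogeneousSubmodule (Fin 3) k d ⊓
    (Submodule.restrictScalars k
      ((Ideal.span {X - C (∑ j : Fin r, C (a j) * X ^ (j : ℕ)), C ((X - C c) ^ r)} :
        Ideal k[X][X]) ^ m)).comap
      (MvPolynomial.aeval ![C X, X, 1] :
        MvPolynomial (Fin 3) k →ₐ[k] k[X][X]).toLinearMap

theorem result (k : Type u) [Field k] [IsAlgClosed k] (r : ℕ) (hr : 5 ^ 168 ≤ r) (m : ℕ)
    (hm : 0 < m) :
    ∃ F : MvPolynomial (Fin (r + 1)) k, F ≠ 0 ∧
      ∀ (c : k) (a : Fin r → k), MvPolynomial.eval (Fin.cons c a : Fin (r + 1) → k) F ≠ 0 →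
        ∀ d : ℕ,
          ((d : ℝ) ≤ (1 - Real.exp (-(Real.log r ^ 2 / 31))) * (m * Real.sqrt r) ∨
            ((m : ℝ) ≤ Real.exp (Real.log r ^ 2 / 92) ∧ (d : ℝ) < m * Real.sqrt r) ∨
            Real.sqrt r * (m + 1) ≤ (1 - Real.exp (-(Real.log r ^ 2 / 31))) * d) →
          Module.finrank k ↥(forms m c a d) =
            Nat.choose (d + 2) 2 - r * Nat.choose (m + 1) 2 := by
  have : Infinite k := IsAlgClosed.instInfinite
  obtain ⟨F, hF, hF'⟩ := H713R3.coll_win (K := k) hr hm
  refine ⟨F, hF, fun c a hc d hd => ?_⟩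
  have h0 := hF' c a hc d
  rcases hd with hd | hd | hd
  · exact (h0.1 (Or.inl hd)).2
  · exact (h0.1 (Or.inr hd)).2
  · exact h0.2 hd

end Pool.Agent.Results.MP_e6aa12_ag.CollisionQuasiPolynomial
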